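import Mathlib
import Pool.Agent.Helper73.TH.Defs

set_option autoImplicit false

/-!
Project TH (MP_594f4b_nt, Q2), piece TH-4: badly approximable linear forms from the norm form
of the cubic field generated by the cube root of two.
-/

namespace Pool.Agent.Helper73.TH

namespace P4

/-- the norm form -/
def nf (x y z : ℤ) : ℤ := x ^ 3 + 2 * y ^ 3 + 4 * z ^ 3 - 6 * x * y * z

theorem even_of_cube {a : ℤ} (h : Even (a ^ 3)) : Even a := by
  rw [Int.even_pow] at h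
  exact h.1

theorem nf_descent {x y z : ℤ} (h : nf x y z = 0) :
    ∃ x' y' z' : ℤ, x = 2 * x' ∧ y = 2 * y' ∧ z = 2 * z' ∧ nf x' y' z' = 0 := by
  unfold nf at h
  have hx : Even x := even_of_cube ⟨-y ^ 3 - 2 * z ^ 3 + 3 * x * y * z, by linarith⟩
  obtain ⟨x', hx'⟩ := hx
  have hx2 : x = 2 * x' := by omega
  subst hx2
  have h1 : 4 * x' ^ 3 + y ^ 3 + 2 * z ^ 3 - 6 * x' * y * z = 0 := by
    have : 2 * (4 * x' ^ 3 + y ^ 3 + 2 * z ^ 3 - 6 * x' * y * z) = 0 := by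
      rw [← h]; ring
    linarith
  have hy : Even y := even_of_cube ⟨-2 * x' ^ 3 - z ^ 3 + 3 * x' * y * z, by linarith⟩
  obtain ⟨y', hy'⟩ := hy
  have hy2 : y = 2 * y' := by omega
  subst hy2
  have h2 : 2 * x' ^ 3 + 4 * y' ^ 3 + z ^ 3 - 6 * x' * y' * z = 0 := by
    have : 2 * (2 * x' ^ 3 + 4 * y' ^ 3 + z ^ 3 - 6 * x' * y' * z) = 0 := by
      rw [← h1]; ring
    linarith
  have hz : Even z := even_of_cube ⟨-x' ^ 3 - 2 * y' ^ 3 + 3 * x' * y' * z, by linarith⟩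
  obtain ⟨z', hz'⟩ := hz
  have hz2 : z = 2 * z' := by omega
  subst hz2
  refine ⟨x', y', z', rfl, rfl, rfl, ?_⟩
  unfold nf
  have : 2 * (x' ^ 3 + 2 * y' ^ 3 + 4 * z' ^ 3 - 6 * x' * y' * z') = 0 := by
    rw [← h2]; ring
  linarith

theorem nf_dvd (k : ℕ) : ∀ x y z : ℤ, nf x y z = 0 → (2 : ℤ) ^ k ∣ x ∧ (2 : ℤ) ^ k ∣ y ∧
    (2 : ℤ) ^ k ∣ z := by
  induction k with
  | zero => intro x y z _; simp
  | succ k ih =>
    intro x y z h
    obtain ⟨x', y', z', hx, hy, hz, h'⟩ := nf_descent h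
    obtain ⟨h1, h2, h3⟩ := ih x' y' z' h'
    refine ⟨?_, ?_, ?_⟩
    · rw [hx, pow_succ, mul_comm]; exact mul_dvd_mul_left 2 h1
    · rw [hy, pow_succ, mul_comm]; exact mul_dvd_mul_left 2 h2
    · rw [hz, pow_succ, mul_comm]; exact mul_dvd_mul_left 2 h3

theorem eq_zero_of_dvd {x : ℤ} (h : ∀ k : ℕ, (2 : ℤ) ^ k ∣ x) : x = 0 := by
  refine Int.eq_zero_of_abs_lt_dvd (h x.natAbs) ?_
  rw [Int.abs_eq_natAbs]
  exact_mod_cast Nat.lt_two_pow_self

theorem nf_eq_zero {x y z : ℤ} (h : nf x y z = 0) : x = 0 ∧ y = 0 ∧ z = 0 :=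
  ⟨eq_zero_of_dvd fun k => (nf_dvd k x y z h).1, eq_zero_of_dvd fun k => (nf_dvd k x y z h).2.1,
    eq_zero_of_dvd fun k => (nf_dvd k x y z h).2.2⟩

theorem exists_root : ∃ t : ℝ, 0 < t ∧ t ^ 3 = 2 ∧ t < 2 ∧ t ^ 2 < 2 := by
  refine ⟨(2 : ℝ) ^ ((3 : ℝ)⁻¹), by positivity, ?_, ?_, ?_⟩
  · rw [← Real.rpow_natCast, ← Real.rpow_mul (by norm_num)]
    norm_num
  · have h3 : ((2 : ℝ) ^ ((3 : ℝ)⁻¹)) ^ 3 = 2 := by
      rw [← Real.rpow_natCast, ← Real.rpow_mul (by norm_num)]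
      norm_num
    have h0 : 0 < (2 : ℝ) ^ ((3 : ℝ)⁻¹) := by positivity
    by_contra hc
    push Not at hc
    nlinarith [mul_nonneg h0.le h0.le, mul_le_mul hc hc (by norm_num) h0.le,
      mul_self_nonneg ((2 : ℝ) ^ ((3 : ℝ)⁻¹))]
  · have h3 : ((2 : ℝ) ^ ((3 : ℝ)⁻¹)) ^ 3 = 2 := by
      rw [← Real.rpow_natCast, ← Real.rpow_mul (by norm_num)]
      norm_num
    have h0 : 0 < (2 : ℝ) ^ ((3 : ℝ)⁻¹) := by positivity
    by_contra hc
    push Not at hc
    have h6 : (((2 : ℝ) ^ ((3 : ℝ)⁻¹)) ^ 2) ^ 3 = 4 := by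
      rw [← pow_mul, mul_comm, pow_mul, h3]; norm_num
    have h8 : (2 : ℝ) ^ 3 ≤ (((2 : ℝ) ^ ((3 : ℝ)⁻¹)) ^ 2) ^ 3 :=
      pow_le_pow_left₀ (by norm_num) hc 3
    rw [h6] at h8
    norm_num at h8

theorem nf_factor {t : ℝ} (ht : t ^ 3 = 2) (x y z : ℤ) :
    ((nf x y z : ℤ) : ℝ) = (x + t * y + t ^ 2 * z) *
      ((x : ℝ) ^ 2 + (t * y) ^ 2 + (t ^ 2 * z) ^ 2 - x * (t * y) - (t * y) * (t ^ 2 * z)
        - (t ^ 2 * z) * x) := by
  unfold nf
  push_cast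
  have h6 : t ^ 6 = 4 := by
    have : t ^ 6 = (t ^ 3) ^ 2 := by ring
    rw [this, ht]; norm_num
  have e : (x + t * y + t ^ 2 * z) *
      ((x : ℝ) ^ 2 + (t * y) ^ 2 + (t ^ 2 * z) ^ 2 - x * (t * y) - (t * y) * (t ^ 2 * z)
        - (t ^ 2 * z) * x) = x ^ 3 + t ^ 3 * y ^ 3 + t ^ 6 * z ^ 3 - 3 * t ^ 3 * x * y * z := by
    ring
  rw [e, ht, h6]
  ring

theorem one_le_abs_nf {x y z : ℤ} (h : y ≠ 0 ∨ z ≠ 0) : (1 : ℝ) ≤ |((nf x y z : ℤ) : ℝ)| := by
  have h0 : nf x y z ≠ 0 := by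
    intro h'
    obtain ⟨_, h2, h3⟩ := nf_eq_zero h'
    rcases h with h | h
    · exact h h2
    · exact h h3
  rw [← Int.cast_abs]
  exact_mod_cast Int.one_le_abs h0

end P4

theorem exists_bad : ∃ θ₁ θ₂ : ℝ, LinearIndependent ℤ ![(1 : ℝ), θ₁, θ₂] ∧
    ∃ c : ℝ, 0 < c ∧ ∀ x1 x2 : ℤ, (x1 ≠ 0 ∨ x2 ≠ 0) →
      c ≤ (max |(x1 : ℝ)| |(x2 : ℝ)|) ^ 2 * distInt (θ₁ * x1 + θ₂ * x2) := by
  obtain ⟨t, ht0, ht3, ht2, ht22⟩ := P4.exists_root
  refine ⟨t, t ^ 2, ?_, 1 / 57, by norm_num, ?_⟩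
  · rw [Fintype.linearIndependent_iff]
    intro g hg
    have hsum : (g 0 : ℝ) + t * g 1 + t ^ 2 * g 2 = 0 := by
      simp [Fin.sum_univ_three] at hg
      linarith
    have hn : P4.nf (g 0) (g 1) (g 2) = 0 := by
      have := P4.nf_factor ht3 (g 0) (g 1) (g 2)
      rw [hsum, zero_mul] at this
      exact_mod_cast this
    obtain ⟨h0, h1, h2⟩ := P4.nf_eq_zero hn
    intro i
    fin_cases i
    · exact h0
    · exact h1
    · exact h2
  · intro x1 x2 hx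
    set M : ℝ := max |(x1 : ℝ)| |(x2 : ℝ)| with hM
    set r : ℤ := round (t * x1 + t ^ 2 * x2) with hr
    set l : ℝ := ((-r : ℤ) : ℝ) + t * x1 + t ^ 2 * x2 with hl
    have hdist : distInt (t * x1 + t ^ 2 * x2) = |l| := by
      unfold distInt
      rw [hl, ← hr]
      push_cast
      congr 1
      ring
    have hl2 : |l| ≤ 1 / 2 := by
      rw [← hdist]
      exact abs_sub_round _
    have hM1 : 1 ≤ M := by
      rcases hx with h | h
      · refine le_trans ?_ (le_max_left _ _)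
        rw [← Int.cast_abs]; exact_mod_cast Int.one_le_abs h
      · refine le_trans ?_ (le_max_right _ _)
        rw [← Int.cast_abs]; exact_mod_cast Int.one_le_abs h
    have hb : |t * (x1 : ℝ)| ≤ 2 * M := by
      rw [abs_mul, abs_of_pos ht0]
      exact mul_le_mul ht2.le (le_max_left _ _) (abs_nonneg _) (by norm_num)
    have hc : |t ^ 2 * (x2 : ℝ)| ≤ 2 * M := by
      rw [abs_mul, abs_of_pos (by positivity)]
      exact mul_le_mul ht22.le (le_max_right _ _) (abs_nonneg _) (by norm_num)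
    have ha : |((-r : ℤ) : ℝ)| ≤ 5 * M := by
      have : ((-r : ℤ) : ℝ) = l - t * x1 - t ^ 2 * x2 := by rw [hl]; ring
      rw [this]
      have h1 := abs_sub (l - t * x1) (t ^ 2 * x2)
      have h2 := abs_sub l (t * x1)
      linarith
    have hN := P4.one_le_abs_nf (x := -r) hx
    rw [P4.nf_factor ht3, abs_mul, ← hl] at hN
    set a : ℝ := ((-r : ℤ) : ℝ) with ha'
    set b : ℝ := t * (x1 : ℝ) with hb'
    set c : ℝ := t ^ 2 * (x2 : ℝ) with hc'
    have hQ : |a ^ 2 + b ^ 2 + c ^ 2 - a * b - b * c - c * a| ≤ 57 * M ^ 2 := by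
      obtain ⟨a1, a2⟩ := abs_le.1 ha
      obtain ⟨b1, b2⟩ := abs_le.1 hb
      obtain ⟨c1, c2⟩ := abs_le.1 hc
      have sa : a ^ 2 ≤ 25 * M ^ 2 := by
        have := sq_le_sq' a1 a2; nlinarith
      have sb : b ^ 2 ≤ 4 * M ^ 2 := by
        have := sq_le_sq' b1 b2; nlinarith
      have sc : c ^ 2 ≤ 4 * M ^ 2 := by
        have := sq_le_sq' c1 c2; nlinarith
      have hM0 : 0 ≤ M := by linarith
      have pab : |a * b| ≤ 10 * M ^ 2 := by
        rw [abs_mul]; nlinarith [mul_le_mul ha hb (abs_nonneg _) (by positivity)]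
      have pbc : |b * c| ≤ 4 * M ^ 2 := by
        rw [abs_mul]; nlinarith [mul_le_mul hb hc (abs_nonneg _) (by positivity)]
      have pca : |c * a| ≤ 10 * M ^ 2 := by
        rw [abs_mul]; nlinarith [mul_le_mul hc ha (abs_nonneg _) (by positivity)]
      obtain ⟨q1, q2⟩ := abs_le.1 pab
      obtain ⟨q3, q4⟩ := abs_le.1 pbc
      obtain ⟨q5, q6⟩ := abs_le.1 pca
      rw [abs_le]
      constructor
      · nlinarith [sq_nonneg a, sq_nonneg b, sq_nonneg c]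
      · nlinarith
    have h1 : |l| * |a ^ 2 + b ^ 2 + c ^ 2 - a * b - b * c - c * a| ≤ |l| * (57 * M ^ 2) :=
      mul_le_mul_of_nonneg_left hQ (abs_nonneg _)
    rw [hdist]
    nlinarith

theorem not_admits_of_two_lt (ρ s : ℝ) (hs : 2 < s) : ¬ Admits ρ 0 s := by
  intro h
  obtain ⟨θ₁, θ₂, hli, c₀, hc₀, hbad⟩ := exists_bad
  obtain ⟨c, hc, hinf⟩ := h θ₁ θ₂ hli (LinearEquiv.refl ℝ (ℝ × ℝ))
  refine hinf ?_
  set B : ℝ := (c / c₀) ^ ((s - 2)⁻¹) with hB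
  set K : ℤ := max 1 ⌈B⌉ with hK
  have hfin : (Set.Icc (-K) K ×ˢ Set.Icc (-K) K : Set (ℤ × ℤ)).Finite :=
    (Set.finite_Icc _ _).prod (Set.finite_Icc _ _)
  refine hfin.subset ?_
  rintro ⟨x1, x2⟩ ⟨_, hx⟩
  simp only at hx
  have hbound : max |(x1 : ℝ)| |(x2 : ℝ)| ≤ K := by
    by_cases h0 : x1 ≠ 0 ∨ x2 ≠ 0
    · set M : ℝ := max |(x1 : ℝ)| |(x2 : ℝ)| with hM
      have hM1 : 1 ≤ M := by
        rcases h0 with h | h
        · refine le_trans ?_ (le_max_left _ _)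
          rw [← Int.cast_abs]; exact_mod_cast Int.one_le_abs h
        · refine le_trans ?_ (le_max_right _ _)
          rw [← Int.cast_abs]; exact_mod_cast Int.one_le_abs h
      have hM0 : 0 < M := by linarith
      have h1 := hbad x1 x2 h0
      have h2 : c₀ ≤ M ^ 2 * (c * M ^ (-s)) :=
        le_trans h1 (mul_le_mul_of_nonneg_left hx (by positivity))
      have h3 : M ^ (s - 2) ≤ c / c₀ := by
        rw [le_div_iff₀ hc₀]
        have hpos : 0 < M ^ (s - 2) := Real.rpow_pos_of_pos hM0 _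
        have h4 : M ^ (s - 2) * c₀ ≤ M ^ (s - 2) * (M ^ 2 * (c * M ^ (-s))) :=
          mul_le_mul_of_nonneg_left h2 hpos.le
        have h5 : M ^ (s - 2) * (M ^ 2 * (c * M ^ (-s))) = c := by
          have e1 : M ^ 2 = M ^ (2 : ℝ) := (Real.rpow_natCast M 2).symm
          have e2 : M ^ (s - 2) * (M ^ 2 * (c * M ^ (-s)))
              = c * (M ^ (s - 2) * M ^ (2 : ℝ) * M ^ (-s)) := by rw [e1]; ring
          rw [e2, ← Real.rpow_add hM0, ← Real.rpow_add hM0]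
          have : s - 2 + 2 + -s = 0 := by ring
          rw [this, Real.rpow_zero, mul_one]
        rw [h5] at h4
        exact h4
      have h6 : M ≤ B := by
        have h7 := Real.rpow_le_rpow (Real.rpow_nonneg hM0.le _) h3
          (inv_nonneg.2 (by linarith : (0 : ℝ) ≤ s - 2))
        rw [Real.rpow_rpow_inv hM0.le (by linarith : s - 2 ≠ 0)] at h7
        exact h7
      refine le_trans h6 ?_
      refine le_trans (Int.le_ceil B) ?_
      exact_mod_cast le_max_right _ _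
    · push Not at h0
      obtain ⟨h01, h02⟩ := h0
      subst h01; subst h02
      simp only [Int.cast_zero, abs_zero, max_self]
      have : (0 : ℤ) ≤ K := le_trans zero_le_one (le_max_left _ _)
      exact_mod_cast this
  have hx1 : |x1| ≤ K := by
    have := le_trans (le_max_left _ _) hbound
    rw [← Int.cast_abs] at this
    exact_mod_cast this
  have hx2 : |x2| ≤ K := by
    have := le_trans (le_max_right _ _) hbound
    rw [← Int.cast_abs] at this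
    exact_mod_cast this
  exact ⟨abs_le.1 hx1, abs_le.1 hx2⟩

end Pool.Agent.Helper73.TH
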